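import Mathlib
import Pool.Agent.Y453.UF.Stm3
import Pool.Agent.Y453.UF.T16
import Pool.Agent.Y96.UF.Sum

/-!
# Project UF (helper453): the four-dimensional piece
-/

set_option autoImplicit false

namespace Pool.Agent.Y814.UF

open Finset Pool.Agent.Y453.UF Pool.Agent.Y453.UF.T16
open scoped Matrix

/-- isometries from tables -/
theorem iso_tables {N : ℕ} (T P Q : Matrix (Fin N) (Fin N) ℤ) (hPQ : P * Q = 1)
    {ι : Type} [Fintype ι] (kap : ι ≃ Fin N) (M0 : Matrix ι ι ℤ)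
    (h : ∀ i j, (P * T * Pᵀ) (kap i) (kap j) = M0 i j) :
    ∃ F : (Fin N → ℤ) ≃+ (ι → ℤ), ∀ v v', v ⬝ᵥ T.mulVec v' = F v ⬝ᵥ M0.mulVec (F v') := by
  have hQP : Q * P = 1 := mul_eq_one_comm.mp hPQ
  have h1 : ∀ v : Fin N → ℤ, Pᵀ.mulVec (Qᵀ.mulVec v) = v := by
    intro v
    rw [Matrix.mulVec_mulVec, ← Matrix.transpose_mul, hQP, Matrix.transpose_one,
      Matrix.one_mulVec]
  have h2 : ∀ v : Fin N → ℤ, Qᵀ.mulVec (Pᵀ.mulVec v) = v := by
    intro v
    rw [Matrix.mulVec_mulVec, ← Matrix.transpose_mul, hPQ, Matrix.transpose_one,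
      Matrix.one_mulVec]
  let F : (Fin N → ℤ) ≃+ (ι → ℤ) :=
    { toFun := fun v i => Qᵀ.mulVec v (kap i)
      invFun := fun c => Pᵀ.mulVec (fun a => c (kap.symm a))
      left_inv := by
        intro v
        simp only [Equiv.apply_symm_apply]
        exact h1 v
      right_inv := by
        intro c
        funext i
        simp only [h2, Equiv.symm_apply_apply]
      map_add' := by
        intro a b
        funext i
        simp only [Matrix.mulVec_add, Pi.add_apply] }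
  refine ⟨F, fun v v' => ?_⟩
  have h3 : v ⬝ᵥ T.mulVec v' = (Qᵀ.mulVec v) ⬝ᵥ (P * T * Pᵀ).mulVec (Qᵀ.mulVec v') := by
    conv_lhs => rw [← h1 v, ← h1 v']
    rw [← Matrix.mulVec_mulVec, ← Matrix.mulVec_mulVec, Matrix.mulVec_transpose P (Qᵀ.mulVec v),
      ← Matrix.dotProduct_mulVec]
  rw [h3]
  have h4 : ∀ (w w' : Fin N → ℤ) (M : Matrix (Fin N) (Fin N) ℤ),
      w ⬝ᵥ M.mulVec w' = ∑ i, w (kap i) * ∑ j, M (kap i) (kap j) * w' (kap j) := by
    intro w w' M
    unfold dotProduct Matrix.mulVec dotProduct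
    rw [← kap.sum_comp]
    refine sum_congr rfl fun i _ => ?_
    rw [← kap.sum_comp]
  rw [h4]
  simp only [h]
  rfl

/-- the matrices -/
def PM : Matrix (Fin 16) (Fin 16) ℤ := Matrix.of fun i j => tab PTab i j
/-- the matrices -/
def QM : Matrix (Fin 16) (Fin 16) ℤ := Matrix.of fun i j => tab QTab i j
/-- the matrices -/
def TM : Matrix (Fin 16) (Fin 16) ℤ := Matrix.of fun i j => tab TTab i j

theorem PQ_one : PM * QM = 1 := by
  ext i j
  rw [Matrix.mul_apply, Matrix.one_apply, fsum_eq]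
  exact PQ_tab i j

theorem PTP (i j : Fin 16) : (PM * TM * PMᵀ) i j = tab JTab i j := by
  rw [Matrix.mul_apply, fsum_eq, ← PTP_tab]
  congr 1
  funext k
  rw [Matrix.mul_apply, fsum_eq]
  rw [show (fun l => PM i l * TM l k) = fun l : Fin 16 => tab PTab i l * tab TTab l k from rfl,
    PT_tab]
  rfl

/-- the index of the pair `(p, q)` -/
def e0 : (Fin 4 → Fin 4 → ℤ) ≃+ (Fin 16 → ℤ) where
  toFun X := fun k => X ((finProdFinEquiv (m := 4) (n := 4)).symm k).1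
    ((finProdFinEquiv (m := 4) (n := 4)).symm k).2
  invFun v := fun p q => v ((finProdFinEquiv (m := 4) (n := 4)) (p, q))
  left_inv X := by
    funext p q
    simp
  right_inv v := by
    funext k
    simp
  map_add' X Y := rfl

theorem e0_apply (X : Fin 4 → Fin 4 → ℤ) (x : Fin 4 × Fin 4) :
    e0 X ((finProdFinEquiv (m := 4) (n := 4)) x) = X x.1 x.2 := by
  show X ((finProdFinEquiv (m := 4) (n := 4)).symm (finProdFinEquiv x)).1
    ((finProdFinEquiv (m := 4) (n := 4)).symm (finProdFinEquiv x)).2 = _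
  rw [Equiv.symm_apply_apply]

theorem TM_apply (x y : Fin 4 × Fin 4) :
    TM ((finProdFinEquiv (m := 4) (n := 4)) x) ((finProdFinEquiv (m := 4) (n := 4)) y) =
      -(A4 0 x.1 y.1 * B4m 0 x.2 y.2 + A4 1 x.1 y.1 * B4m 1 x.2 y.2 +
        A4 2 x.1 y.1 * B4m 2 x.2 y.2) := by
  rw [T_tab]
  show tab TTab (x.2.val + 4 * x.1.val) (y.2.val + 4 * y.1.val) = _
  rw [add_comm x.2.val, add_comm y.2.val]

/-- the form on `Z^4 ⊗ Z^4` -/
theorem form_eq (X Y : Fin 4 → Fin 4 → ℤ) :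
    -(∑ i, ∑ p, ∑ q, ∑ p', ∑ q', A4 i p p' * B4m i q q' * X p q * Y p' q') =
      (e0 X) ⬝ᵥ TM.mulVec (e0 Y) := by
  have h1 : (e0 X) ⬝ᵥ TM.mulVec (e0 Y) = ∑ x : Fin 4 × Fin 4, ∑ y : Fin 4 × Fin 4,
      X x.1 x.2 * (TM ((finProdFinEquiv (m := 4) (n := 4)) x)
        ((finProdFinEquiv (m := 4) (n := 4)) y) * Y y.1 y.2) := by
    unfold dotProduct Matrix.mulVec dotProduct
    rw [← (finProdFinEquiv (m := 4) (n := 4)).sum_comp]
    refine sum_congr rfl fun x _ => ?_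
    rw [← (finProdFinEquiv (m := 4) (n := 4)).sum_comp, mul_sum]
    refine sum_congr rfl fun y _ => ?_
    rw [e0_apply, e0_apply]
  rw [h1]
  simp only [TM_apply, Fintype.sum_prod_type]
  rw [Fin.sum_univ_three]
  simp only [← sum_add_distrib, ← sum_neg_distrib]
  refine sum_congr rfl fun p _ => sum_congr rfl fun q _ => sum_congr rfl fun p' _ =>
    sum_congr rfl fun q' _ => ?_
  ring

theorem one_copy : ∃ G : (Fin 4 → Fin 4 → ℤ) ≃+ ((Fin 2 × Fin 4) ⊕ (Fin 8 × Fin 1) → ℤ),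
    ∀ X Y, -(∑ i, ∑ p, ∑ q, ∑ p', ∑ q', A4 i p p' * B4m i q q' * X p q * Y p' q') =
      G X ⬝ᵥ (gram 4 1 1).mulVec (G Y) := by
  obtain ⟨F, hF⟩ := iso_tables TM PM QM PQ_one kap (gram 4 1 1) (fun i j => by
    rw [PTP, J_tab])
  refine ⟨e0.trans F, fun X Y => ?_⟩
  rw [form_eq, hF]
  rfl

/-- the first four and the last four rows -/
def split8 : (Fin 8 → Fin 4 → ℤ) ≃+ (Fin 4 → Fin 4 → ℤ) × (Fin 4 → Fin 4 → ℤ) where
  toFun X := (fun p => X (Fin.castAdd 4 p), fun p => X (Fin.natAdd 4 p))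
  invFun x := fun p => Fin.addCases (m := 4) (n := 4) x.1 x.2 p
  left_inv X := by
    funext p
    refine Fin.addCases (m := 4) (n := 4) (fun p => ?_) (fun p => ?_) p
    · exact Fin.addCases_left (m := 4) (n := 4) p
    · exact Fin.addCases_right (m := 4) (n := 4) p
  right_inv x := by
    obtain ⟨x, y⟩ := x
    refine Prod.ext ?_ ?_
    · funext p
      exact Fin.addCases_left (m := 4) (n := 4) (motive := fun _ => Fin 4 → ℤ) (left := x)
        (right := y) p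
    · funext p
      exact Fin.addCases_right (m := 4) (n := 4) (motive := fun _ => Fin 4 → ℤ) (left := x)
        (right := y) p
  map_add' X Y := rfl

theorem aln_ll : ∀ (i : Fin 3) (p q : Fin 4),
    aln i (Fin.castAdd 4 p) (Fin.castAdd 4 q) = (A4 i p q : ℤ) := by
  have h : ∀ (i : Fin 3) (p q : Fin 4),
    aln i (Fin.castAdd 4 p) (Fin.castAdd 4 q) - A4 i p q = 0 := by decide +kernel
  exact fun i p q => sub_eq_zero.1 (h i p q)
theorem aln_lr : ∀ (i : Fin 3) (p q : Fin 4),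
    aln i (Fin.castAdd 4 p) (Fin.natAdd 4 q) = 0 := by decide +kernel
theorem aln_rl : ∀ (i : Fin 3) (p q : Fin 4),
    aln i (Fin.natAdd 4 p) (Fin.castAdd 4 q) = 0 := by decide +kernel
theorem aln_rr : ∀ (i : Fin 3) (p q : Fin 4),
    aln i (Fin.natAdd 4 p) (Fin.natAdd 4 q) = (A4 i p q : ℤ) := by
  have h : ∀ (i : Fin 3) (p q : Fin 4),
    aln i (Fin.natAdd 4 p) (Fin.natAdd 4 q) - A4 i p q = 0 := by decide +kernel
  exact fun i p q => sub_eq_zero.1 (h i p q)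

theorem skewB : ∀ (i : Fin 3) (p q : Fin 4), B4m i q p = -B4m i p q := by decide +kernel

/-- an additional empty factor -/
def addEmpty (A : Type) [AddCommGroup A] :
    A × A ≃+ A × A × ((Fin 2 × Fin 0) ⊕ (Fin 8 × Fin 0) → ℤ) where
  toFun x := (x.1, x.2, fun _ => 0)
  invFun x := (x.1, x.2.1)
  left_inv x := rfl
  right_inv x := by
    obtain ⟨x, y, z⟩ := x
    refine Prod.ext rfl (Prod.ext rfl ?_)
    funext t
    rcases t with ⟨_, j⟩ | ⟨_, j⟩
    · exact j.elim0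
    · exact j.elim0
  map_add' x y := by
    refine Prod.ext rfl (Prod.ext rfl ?_)
    funext t
    rcases t with ⟨_, j⟩ | ⟨_, j⟩
    · exact j.elim0
    · exact j.elim0

theorem tq4 : S_TQ4 := by
  obtain ⟨G, hG⟩ := one_copy
  obtain ⟨f, hf⟩ := Pool.Agent.Y96.UF.sum_gram 4 1 4 1 0 1
  refine ⟨fun i => ⟨fun p q => B4m i p q, fun p q => skewB i p q⟩,
    ((split8.trans (AddEquiv.prodCongr G G)).trans (addEmpty _)).trans f, fun X Y => ?_⟩
  have h1 := hf (addEmpty _ (AddEquiv.prodCongr G G (split8 X)))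
    (addEmpty _ (AddEquiv.prodCongr G G (split8 Y)))
  refine Eq.trans ?_ h1.symm
  show _ = G (fun p => X (Fin.castAdd 4 p)) ⬝ᵥ (gram 4 1 1).mulVec
      (G (fun p => Y (Fin.castAdd 4 p))) +
    G (fun p => X (Fin.natAdd 4 p)) ⬝ᵥ (gram 4 1 1).mulVec (G (fun p => Y (Fin.natAdd 4 p))) +
    (fun _ => (0 : ℤ)) ⬝ᵥ (gram 0 0 1).mulVec (fun _ => 0)
  rw [← hG, ← hG]
  have h2 : ((fun _ => (0 : ℤ)) : ((Fin 2 × Fin 0) ⊕ (Fin 8 × Fin 0)) → ℤ) ⬝ᵥ
      (gram 0 0 1).mulVec (fun _ => 0) = 0 := by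
    unfold dotProduct
    simp
  rw [h2, add_zero, ← neg_add, ← sum_add_distrib]
  congr 1
  refine sum_congr rfl fun i _ => ?_
  have h3 : ∀ g : Fin 8 → ℤ, ∑ p : Fin 8, g p =
      ∑ p : Fin 4, g (Fin.castAdd 4 p) + ∑ p : Fin 4, g (Fin.natAdd 4 p) :=
    fun g => Fin.sum_univ_add (a := 4) (b := 4) g
  rw [h3]
  simp only [h3, aln_ll, aln_lr, aln_rl, aln_rr, zero_mul, sum_const_zero, add_zero, zero_add]

end Pool.Agent.Y814.UF
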